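import Mathlib
import Pool.Agent.Helper69.RN.St
import Pool.Agent.Helper20.W.RedB

/-! # RING NOISE: from the form without base to the form over a base -/

set_option autoImplicit false

namespace Pool.Agent.Helper35.RN

open Finset Pool.Agent.Helper69.RK Pool.Agent.Helper61.GL Pool.Agent.Helper46.WF Pool.Agent.Helper92.W
  Pool.Agent.Helper69.RN

section core

variable {Ω φ α : Type} [Fintype Ω]

/-- mean of the probabilities under the conditional laws -/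
theorem rd_Pw_cw {γ : Type} (μ : Ω → ℝ) (hμ : ∀ ω, 0 ≤ μ ω) (G : Ω → γ) (B : Ω → Prop) :
    ∑ ω, μ ω * Pw (cw μ G ω) B = Pw μ B := by
  classical
  have h1 : ∀ w : Ω → ℝ, Pw w B = ∑ ω, w ω * (if B ω then 1 else 0) := by
    intro w
    unfold Pw
    refine sum_congr rfl fun ω _ => ?_
    by_cases h : B ω
    · simp only [if_pos h, mul_one]
    · simp only [if_neg h, mul_zero]
  rw [h1 μ, ← cw_expect μ hμ G (fun ω => if B ω then 1 else 0)]
  refine sum_congr rfl fun ω _ => ?_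
  rw [h1]

theorem rd_pi {ι β : Type} [Fintype ι] (w : Ω → ℝ) (hw : ∀ ω, 0 ≤ w ω) (D : ι → Ω → β) :
    Hh w (fun ω => fun i => D i ω) ≤ ∑ i, Hh w (D i) := by
  classical
  exact ch_pi_le w hw D (fun _ => ()) (fun _ _ => ())

/-- local loss: nonnegative -/
theorem rd_D1 {j n : ℕ} (w : Ω → ℝ) (hw : ∀ ω, 0 ≤ w ω) (z : Ω → ℝ) (κ : Fin (j + 1) → Ω → ℝ) :
    Hh w (fun ω => (fl n (z ω), fun i => κ i ω)) ≤ Hh w (fun ω => fl n (z ω)) + ∑ i, Hh w (κ i) := by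
  have h1 : Hh w (fun ω => (fl n (z ω), fun i => κ i ω)) = Hh w (fun ω => fl n (z ω)) +
      CH w (fun ω => fun i => κ i ω) (fun ω => (fl n (z ω), ())) := by
    unfold Hh
    rw [ch_chain]
  have h2 : CH w (fun ω => fun i => κ i ω) (fun ω => (fl n (z ω), ())) ≤ Hh w (fun ω => fun i => κ i ω) :=
    ch_cond w hw _ _ _ (fun _ _ _ _ _ => rfl)
  have h3 := rd_pi w hw κ
  linarith

/-- the absorbed sum has at least the entropy of `z`, up to the loss -/
theorem rd_D2 {j n : ℕ} (w : Ω → ℝ) (hw : ∀ ω, 0 ≤ w ω) (hm : ∑ ω, w ω = 1) (z : Ω → ℝ)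
    (κ : Fin (j + 1) → Ω → ℝ) (y : Ω → ℝ) (hy : ∀ ω ω', w ω ≠ 0 → w ω' ≠ 0 → y ω = y ω') :
    0 ≤ Hh w (fun ω => fl n (z ω + (∏ i, κ i ω) * y ω)) - Hh w (fun ω => fl n (z ω)) +
      (Hh w (fun ω => fl n (z ω)) + ∑ i, Hh w (κ i) - Hh w (fun ω => (fl n (z ω), fun i => κ i ω))) + 2 := by
  have h1 : Hh w (fun ω => (fl n (z ω), fun i => κ i ω)) = Hh w (fun ω => fun i => κ i ω) +
      CH w (fun ω => fl n (z ω)) (fun ω => ((fun i => κ i ω), ())) := by
    have e1 : Hh w (fun ω => (fl n (z ω), fun i => κ i ω)) =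
        Hh w (fun ω => ((fun i => κ i ω), fl n (z ω))) := by
      unfold Hh
      apply ch_congr_left
      intro ω ω' _ _ _
      rw [Prod.mk.injEq, Prod.mk.injEq]
      exact and_comm
    rw [e1]
    unfold Hh
    rw [ch_chain]
  have h2 := ch_tri w hw (fun ω => fl n (z ω)) (fun ω => fl n (z ω + (∏ i, κ i ω) * y ω))
    (fun ω => ((fun i => κ i ω), ()))
  have h3 : CH w (fun ω => fl n (z ω + (∏ i, κ i ω) * y ω)) (fun ω => ((fun i => κ i ω), ())) ≤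
      Hh w (fun ω => fl n (z ω + (∏ i, κ i ω) * y ω)) := ch_cond w hw _ _ _ (fun _ _ _ _ _ => rfl)
  have h4 : CH w (fun ω => fl n (z ω))
      (fun ω => (fl n (z ω + (∏ i, κ i ω) * y ω), ((fun i => κ i ω), ()))) ≤ 2 := by
    have k1 := ch_int w hw (fun ω => fl n (z ω))
      (fun ω => (fl n (z ω + (∏ i, κ i ω) * y ω), ((fun i => κ i ω), ()))) 3 (by norm_num) (by
        intro ω ω' h h' hh
        have e1 : fl n (z ω + (∏ i, κ i ω) * y ω) = fl n (z ω' + (∏ i, κ i ω') * y ω') :=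
          (Prod.mk.inj hh).1
        have e2 : (fun i => κ i ω) = (fun i => κ i ω') := (Prod.mk.inj (Prod.mk.inj hh).2).1
        have e3 : (∏ i, κ i ω) = ∏ i, κ i ω' := Finset.prod_congr rfl (fun i _ => congrFun e2 i)
        have e4 := hy ω ω' h h'
        rw [e3, e4] at e1
        set P := (∏ i, κ i ω') * y ω'
        unfold fl at e1 ⊢
        have p : (0 : ℝ) < 2 ^ n := by positivity
        have a1 := Int.floor_le ((2 : ℝ) ^ n * (z ω + P))
        have a2 := Int.lt_floor_add_one ((2 : ℝ) ^ n * (z ω + P))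
        have a3 := Int.floor_le ((2 : ℝ) ^ n * (z ω' + P))
        have a4 := Int.lt_floor_add_one ((2 : ℝ) ^ n * (z ω' + P))
        rw [e1] at a1 a2
        have b1 := Int.floor_le ((2 : ℝ) ^ n * z ω)
        have b2 := Int.lt_floor_add_one ((2 : ℝ) ^ n * z ω)
        have b3 := Int.floor_le ((2 : ℝ) ^ n * z ω')
        have b4 := Int.lt_floor_add_one ((2 : ℝ) ^ n * z ω')
        rw [abs_le]
        constructor <;> nlinarith)
    have hmm : mass w = 1 := hm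
    rw [hmm, mul_one] at k1
    refine le_trans k1 ?_
    have k2 : Real.logb 2 (3 + 1) ≤ Real.logb 2 ((2 : ℝ) ^ 2) :=
      Real.logb_le_logb_of_le (by norm_num) (by norm_num) (by norm_num)
    rw [logb_two_pow] at k2
    exact_mod_cast k2
  have h5 := rd_pi w hw κ
  linarith

theorem rd_srp_unit (μ : Ω → ℝ) (hμ : ∀ ω, 0 ≤ μ ω) {α : Type} (f : Ω → α) (F : Ω → φ) (ω0 ω : Ω)
    (h0 : μ ω0 ≠ 0) (h1 : μ ω ≠ 0) (h : F ω = F ω0) :
    srp (cw μ F ω0) f (fun _ => ()) ω = srp μ f F ω := by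
  rw [red_srp_cw μ hμ f (fun _ => ()) F ω0 ω h0 h1 h]
  unfold srp
  have e1 : pr μ (fun ω' => ((), F ω')) ω = pr μ F ω := e1_pr_congr μ _ _ ω (fun ω' _ => by simp)
  have e2 : pr μ (fun ω' => (f ω', ((), F ω'))) ω = pr μ (fun ω' => (f ω', F ω')) ω :=
    e1_pr_congr μ _ _ ω (fun ω' _ => by simp)
  rw [e1, e2]

end core

theorem st_RD : ST_RD := by
  classical
  intro h0 γ ε hγ hγ1 hε
  set ε1 : ℝ := min ε 1 with hε1
  have hε1p : 0 < ε1 := lt_min hε one_pos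
  have hε1le : ε1 ≤ 1 := min_le_right _ _
  have hε1ε : ε1 ≤ ε := min_le_left _ _
  obtain ⟨j, e1, he1, n1, hn1⟩ := h0 γ (ε1 / 2) hγ hγ1 (by linarith)
  set e : ℝ := min e1 1 with he
  have hep : 0 < e := lt_min he1 one_pos
  have hele : e ≤ 1 := min_le_right _ _
  have hee1 : e ≤ e1 := min_le_left _ _
  have hj : (0 : ℝ) < 4 * ((j : ℝ) + 5) := by positivity
  set η : ℝ := ε1 * e / (4 * ((j : ℝ) + 5)) with hη
  have hηp : 0 < η := div_pos (mul_pos hε1p hep) hj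
  have hηe : ((j : ℝ) + 5) * η = ε1 * e / 4 := by
    rw [hη]; field_simp
  have hηle : η ≤ e := by
    have h1 : ε1 * e ≤ 1 * e := mul_le_mul_of_nonneg_right hε1le hep.le
    have h2 : 5 * η ≤ ((j : ℝ) + 5) * η :=
      mul_le_mul_of_nonneg_right (by linarith [Nat.cast_nonneg (α := ℝ) j]) hηp.le
    linarith
  obtain ⟨n2, hn2⟩ := exists_nat_ge (8 / (e * ε1))
  refine ⟨j, η, hηp, max n1 (max n2 1), fun n hn Ω φ _ μ F z κ y hB => ?_⟩
  have k1 : n1 ≤ n := le_trans (le_max_left _ _) hn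
  have k2 : n2 ≤ n := le_trans (le_trans (le_max_left _ _) (le_max_right _ _)) hn
  have k3 : 1 ≤ n := le_trans (le_trans (le_max_right _ _) (le_max_right _ _)) hn
  have hnp : (0 : ℝ) < n := by exact_mod_cast (by omega : 0 < n)
  obtain ⟨hμ, hms, hzb, hkb, hyb, hya, hind, habs, hbr⟩ := hB
  have hm' : ∑ ω, μ ω = 1 := hms
  -- local losses
  let D1 : Ω → ℝ := fun ω => Hh (cw μ F ω) (fun ω' => fl n (z ω')) + ∑ i, Hh (cw μ F ω) (κ i) -
    Hh (cw μ F ω) (fun ω' => (fl n (z ω'), fun i => κ i ω'))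
  let D2 : Ω → ℝ := fun ω => Hh (cw μ F ω) (fun ω' => fl n (z ω' + (∏ i, κ i ω') * y (F ω'))) -
    Hh (cw μ F ω) (fun ω' => fl n (z ω')) + D1 ω + 2
  let Bi : Fin (j + 1) → Ω → Prop := fun i ω => ∃ r : ℕ, r ≤ n ∧
    srp μ (fun ω' => fl r (κ i ω')) F ω < γ * r - η * n
  let D3 : Fin (j + 1) → Ω → ℝ := fun i ω => Pw (cw μ F ω) (Bi i)
  have hw : ∀ ω ω', 0 ≤ cw μ F ω ω' := fun ω => cw_nonneg μ F hμ ω
  have d1 : ∀ ω, 0 ≤ D1 ω := fun ω => by
    have := rd_D1 (n := n) (cw μ F ω) (hw ω) z κ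
    show 0 ≤ _ - _
    linarith
  have hcst : ∀ ω, ∀ ω1 ω2, cw μ F ω ω1 ≠ 0 → cw μ F ω ω2 ≠ 0 → y (F ω1) = y (F ω2) := by
    intro ω ω1 ω2 h1 h2
    rw [(cw_ne_zero μ F h1).1, (cw_ne_zero μ F h2).1]
  have d2 : ∀ ω, μ ω ≠ 0 → 0 ≤ D2 ω := fun ω hω =>
    rd_D2 (n := n) (cw μ F ω) (hw ω) (cw_sum μ F hμ ω hω) z κ (fun ω' => y (F ω')) (hcst ω)
  have m1 : ∑ ω, μ ω * D1 ω ≤ η * n := by
    have e2 : ∑ ω, μ ω * D1 ω = CH μ (fun ω => fl n (z ω)) F + ∑ i, CH μ (κ i) F -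
        CH μ (fun ω => (fl n (z ω), fun i => κ i ω)) F := by
      rw [CH_disint μ hμ, CH_disint μ hμ, Finset.sum_congr rfl (fun i _ => CH_disint μ hμ (κ i) F),
        Finset.sum_comm, ← Finset.sum_add_distrib, ← Finset.sum_sub_distrib]
      refine Finset.sum_congr rfl fun ω _ => ?_
      rw [← Finset.mul_sum]
      show μ ω * (_ - _) = _
      ring
    rw [e2]; linarith
  have m2 : ∑ ω, μ ω * D2 ω ≤ 2 * (η * n) + 2 := by
    have e2 : ∑ ω, μ ω * D2 ω = CH μ (fun ω => fl n (z ω + (∏ i, κ i ω) * y (F ω))) F -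
        CH μ (fun ω => fl n (z ω)) F + ∑ ω, μ ω * D1 ω + 2 := by
      rw [CH_disint μ hμ, CH_disint μ hμ]
      have e3 : (2 : ℝ) = ∑ ω, μ ω * 2 := by rw [← Finset.sum_mul, hm', one_mul]
      rw [e3, ← Finset.sum_sub_distrib, ← Finset.sum_add_distrib, ← Finset.sum_add_distrib]
      refine Finset.sum_congr rfl fun ω _ => ?_
      show μ ω * (_ - _ + _ + 2) = _
      ring
    rw [e2]; linarith
  have m3 : ∀ i, ∑ ω, μ ω * D3 i ω ≤ η := fun i => by
    have e2 : ∑ ω, μ ω * D3 i ω = Pw μ (Bi i) := rd_Pw_cw μ hμ F (Bi i)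
    rw [e2]
    exact hbr i
  -- probabilities
  have hen : 0 < e * n := mul_pos hep hnp
  have p1 : Pw μ (fun ω => e * n < D1 ω) ≤ η / e := by
    refine le_trans (Pw_markov μ hμ D1 (fun ω _ => d1 ω) hen m1) (le_of_eq ?_)
    field_simp
  have p2 : Pw μ (fun ω => e * n < D2 ω) ≤ 2 * (η / e) + ε1 / 4 := by
    refine le_trans (Pw_markov μ hμ D2 d2 hen m2) ?_
    rw [add_div]
    have e2 : 2 * (η * n) / (e * n) = 2 * (η / e) := by field_simp
    rw [e2]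
    have e3 : 2 / (e * n) ≤ ε1 / 4 := by
      rw [div_le_iff₀ hen]
      have h5 : 8 / (e * ε1) ≤ n := le_trans hn2 (by exact_mod_cast k2)
      rw [div_le_iff₀ (mul_pos hep hε1p)] at h5
      linarith
    linarith
  have p3 : ∀ i, Pw μ (fun ω => e < D3 i ω) ≤ η / e := fun i =>
    Pw_markov μ hμ (D3 i) (fun ω _ => Pw_nonneg _ (hw ω) _) hep (m3 i)
  let Gd : Ω → Prop := fun ω => (2 : ℝ) ^ (-(η * n)) ≤ |y (F ω)| ∧ D1 ω ≤ e * n ∧ D2 ω ≤ e * n ∧
    ∀ i, D3 i ω ≤ e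
  have hbadp : Pw μ (fun ω => ¬ Gd ω) ≤ ε1 / 2 := by
    have u1 : Pw μ (fun ω => ¬ Gd ω) ≤ Pw μ (fun ω => |y (F ω)| < (2 : ℝ) ^ (-(η * n)) ∨
        (e * n < D1 ω ∨ (e * n < D2 ω ∨ ∃ i ∈ (Finset.univ : Finset (Fin (j + 1))), e < D3 i ω))) := by
      apply Pw_mono μ hμ
      intro ω _ hω
      by_contra hc
      push Not at hc
      obtain ⟨c1, c2, c3, c4⟩ := hc
      exact hω ⟨c1, c2, c3, fun i => c4 i (Finset.mem_univ i)⟩
    have o1 := Pw_or μ hμ (fun ω => |y (F ω)| < (2 : ℝ) ^ (-(η * n))) (fun ω =>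
        (e * n < D1 ω ∨ (e * n < D2 ω ∨ ∃ i ∈ (Finset.univ : Finset (Fin (j + 1))), e < D3 i ω)))
    have o2 := Pw_or μ hμ (fun ω => e * n < D1 ω) (fun ω =>
        (e * n < D2 ω ∨ ∃ i ∈ (Finset.univ : Finset (Fin (j + 1))), e < D3 i ω))
    have o3 := Pw_or μ hμ (fun ω => e * n < D2 ω) (fun ω =>
        ∃ i ∈ (Finset.univ : Finset (Fin (j + 1))), e < D3 i ω)
    have o4 := red_Pw_ex μ hμ (Finset.univ : Finset (Fin (j + 1))) (fun i ω => e < D3 i ω)
    have o5 : ∑ i ∈ (Finset.univ : Finset (Fin (j + 1))), Pw μ (fun ω => e < D3 i ω) ≤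
        ((j : ℝ) + 1) * (η / e) := by
      refine le_trans (Finset.sum_le_sum fun i _ => p3 i) (le_of_eq ?_)
      rw [Finset.sum_const, Finset.card_univ, Fintype.card_fin, nsmul_eq_mul]
      push_cast
      ring
    have o6 : η ≤ η / e := by
      rw [le_div_iff₀ hep]
      nlinarith
    have o7 : ((j : ℝ) + 5) * (η / e) = ε1 / 4 := by
      rw [← mul_div_assoc, hηe]
      field_simp
    have o8 : ((j : ℝ) + 5) * (η / e) = η / e + η / e + 2 * (η / e) + ((j : ℝ) + 1) * (η / e) := by ring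
    linarith
  have hgood : 1 - ε1 / 2 ≤ Pw μ Gd := by
    have := Pw_compl μ hm' Gd
    linarith
  -- good fibers
  have hloc : ∀ ω, μ ω ≠ 0 → Gd ω → (1 - ε1 / 2) * n ≤ Hh (cw μ F ω) (fun ω' => fl n (z ω')) := by
    intro ω hω hg
    obtain ⟨g1, g2, g3, g4⟩ := hg
    apply hn1 n k1 Ω (cw μ F ω) z κ (y (F ω))
    have hs := cw_sum μ F hμ ω hω
    have hne : e * n ≤ e1 * n := mul_le_mul_of_nonneg_right hee1 hnp.le
    have hηn : η * n ≤ e1 * n := mul_le_mul_of_nonneg_right (hηle.trans hee1) hnp.le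
    refine ⟨hw ω, hs, hzb, hkb, hyb ω hω, ?_, ?_, ?_, ?_⟩
    · refine le_trans ?_ g1
      apply Real.rpow_le_rpow_of_exponent_le (by norm_num)
      linarith
    · have e2 : D1 ω = Hh (cw μ F ω) (fun ω' => fl n (z ω')) + ∑ i, Hh (cw μ F ω) (κ i) -
        Hh (cw μ F ω) (fun ω' => (fl n (z ω'), fun i => κ i ω')) := rfl
      rw [e2] at g2
      linarith
    · have e2 : D2 ω = Hh (cw μ F ω) (fun ω' => fl n (z ω' + (∏ i, κ i ω') * y (F ω'))) -
        Hh (cw μ F ω) (fun ω' => fl n (z ω')) + D1 ω + 2 := rfl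
      have e3 : Hh (cw μ F ω) (fun ω' => fl n (z ω' + (∏ i, κ i ω') * y (F ω))) =
          Hh (cw μ F ω) (fun ω' => fl n (z ω' + (∏ i, κ i ω') * y (F ω'))) := by
        unfold Hh
        apply ch_congr_left
        intro ω1 ω2 h1 h2 _
        rw [(cw_ne_zero μ F h1).1, (cw_ne_zero μ F h2).1]
      rw [e3]
      have := d1 ω
      linarith
    · intro i
      refine le_trans (Pw_mono _ (hw ω) ?_) (le_trans (g4 i) hee1)
      rintro ω' hω' ⟨r, hr, hlt⟩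
      obtain ⟨a1, a2⟩ := cw_ne_zero μ F hω'
      refine ⟨r, hr, ?_⟩
      rw [rd_srp_unit μ hμ (fun ω' => fl r (κ i ω')) F ω ω' hω a2 a1] at hlt
      linarith
  have hfin : (1 - ε1 / 2) * n * Pw μ Gd ≤ CH μ (fun ω => fl n (z ω)) F := by
    rw [CH_disint μ hμ]
    unfold Pw
    rw [Finset.mul_sum]
    apply Finset.sum_le_sum
    intro ω _
    by_cases hg : Gd ω
    · rw [if_pos hg]
      by_cases hω : μ ω = 0
      · rw [hω]; simp
      · have := mul_le_mul_of_nonneg_left (hloc ω hω hg) (hμ ω)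
        linarith
    · rw [if_neg hg, mul_zero]
      exact mul_nonneg (hμ ω) (Hh_nonneg _ (hw ω) _)
  have h6 : (1 - ε) * n ≤ (1 - ε1) * n := mul_le_mul_of_nonneg_right (by linarith) hnp.le
  have h7 : (1 - ε1) * n ≤ (1 - ε1 / 2) * n * Pw μ Gd := by
    have h8 : (1 - ε1 / 2) * n * (1 - ε1 / 2) ≤ (1 - ε1 / 2) * n * Pw μ Gd :=
      mul_le_mul_of_nonneg_left hgood (mul_nonneg (by linarith) hnp.le)
    have h9 : (1 - ε1) * n ≤ (1 - ε1 / 2) * n * (1 - ε1 / 2) := by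
      have : (1 - ε1 / 2) * n * (1 - ε1 / 2) = (1 - ε1) * n + (ε1 / 2) ^ 2 * n := by ring
      rw [this]
      have : 0 ≤ (ε1 / 2) ^ 2 * n := by positivity
      linarith
    linarith
  linarith

end Pool.Agent.Helper35.RN
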